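import Pool.Agent.P.MP_84b56d_ag.Q.Top

/-! Let a connected algebraic group act on a quasi-projective variety with a dense orbit. The
complement of a closed subset of codimension at least two is arithmetically-special, and so is
every quasi-projective variety that it dominates.
Varieties are classical: subsets of projective space over an algebraically closed field. -/

open MvPolynomial Pool.Agent.P.MP_84b56d_ag
open scoped LinearAlgebra.Projectivization

namespace Pool.Agent.Results.MP_84b56d_ag.AlmostHomogeneous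

/-- The Zariski topology of projective `n`-space: generated by the complements of hypersurfaces. -/
def zariski (k : Type*) [Field k] (n : ℕ) : TopologicalSpace (ℙ k (Fin (n + 1) → k)) :=
  TopologicalSpace.generateFrom {U | ∃ (f : MvPolynomial (Fin (n + 1)) k) (d : ℕ),
    f.IsHomogeneous d ∧ U = {x | eval x.rep f ≠ 0}}

/-- A quasi-projective variety: an irreducible locally closed subset of projective space. -/
def IsVariety {k : Type*} [Field k] {n : ℕ} (Y : Set (ℙ k (Fin (n + 1) → k))) : Prop :=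
  @IsLocallyClosed _ (zariski k n) Y ∧ @IsIrreducible _ (zariski k n) Y

/-- `f` is a morphism from `U` to projective space: near every point of `U` it is given by forms
of one degree without common zero. -/
def IsMorphism {k : Type*} [Field k] {n m : ℕ} (U : Set (ℙ k (Fin (n + 1) → k)))
    (f : U → ℙ k (Fin (m + 1) → k)) : Prop :=
  ∀ x : U, ∃ (D : MvPolynomial (Fin (n + 1)) k) (F : Fin (m + 1) → MvPolynomial (Fin (n + 1)) k)
    (d e : ℕ), D.IsHomogeneous d ∧ (∀ l, (F l).IsHomogeneous e) ∧ eval x.1.rep D ≠ 0 ∧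
    ∀ y : U, eval y.1.rep D ≠ 0 →
      ∃ h : (fun l => eval y.1.rep (F l)) ≠ 0, Projectivization.mk k _ h = f y

/-- `f (X, Y)` is homogeneous of degree `d.1` in `X` and of degree `d.2` in `Y`. -/
def Bihomogeneous {k : Type*} [Field k] {n m : ℕ} (f : MvPolynomial (Fin (n + 1) ⊕ Fin (m + 1)) k)
    (d : ℕ × ℕ) : Prop :=
  f.IsWeightedHomogeneous (Sum.elim (fun _ => ((1, 0) : ℕ × ℕ)) fun _ => (0, 1)) d

/-- `f` is a morphism from `U × V` to projective space: near every point it is given by forms of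
one bidegree without common zero. -/
def IsMorphismTwo {k : Type*} [Field k] {n m l : ℕ} (U : Set (ℙ k (Fin (n + 1) → k)))
    (V : Set (ℙ k (Fin (m + 1) → k))) (f : U → V → ℙ k (Fin (l + 1) → k)) : Prop :=
  ∀ (x : U) (y : V), ∃ (D : MvPolynomial (Fin (n + 1) ⊕ Fin (m + 1)) k)
    (F : Fin (l + 1) → MvPolynomial (Fin (n + 1) ⊕ Fin (m + 1)) k) (d e : ℕ × ℕ),
    Bihomogeneous D d ∧ (∀ i, Bihomogeneous (F i) e) ∧ eval (Sum.elim x.1.rep y.1.rep) D ≠ 0 ∧
    ∀ (x' : U) (y' : V), eval (Sum.elim x'.1.rep y'.1.rep) D ≠ 0 →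
      ∃ h : (fun i => eval (Sum.elim x'.1.rep y'.1.rep) (F i)) ≠ 0,
        Projectivization.mk k _ h = f x' y'

/-- `G` is a connected algebraic group: a quasi-projective variety with a group structure whose
multiplication and inversion are morphisms. -/
structure IsConnectedAlgebraicGroup {k : Type*} [Field k] {n : ℕ}
    (G : Set (ℙ k (Fin (n + 1) → k))) [Group G] : Prop where
  variety : IsVariety G
  mul_regular : IsMorphismTwo G G fun x y => (x * y).1
  inv_regular : IsMorphism G fun x => (x⁻¹).1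

/-- `Z` is a closed subset of `Y` of codimension at least two: every irreducible closed subset of
`Y` inside `Z` has coheight at least two among the irreducible closed subsets of `Y`. -/
def CodimTwo {k : Type*} [Field k] {n : ℕ} (Y Z : Set (ℙ k (Fin (n + 1) → k))) : Prop :=
  letI := zariski k n
  Z ⊆ Y ∧ IsClosed (Subtype.val ⁻¹' Z : Set Y) ∧ ∀ W : TopologicalSpace.IrreducibleCloseds Y,
    (W : Set Y) ⊆ Subtype.val ⁻¹' Z → 2 ≤ Order.coheight W

/-- `P` has coordinates in the fraction field of `R`, and at every height one prime `s` of `R` it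
has coordinates in `R`, not all in `s`, at which some form of `b` is not in `s`: `P` extends to a
point over the local ring at `s` of the complement of the zero scheme of `b`. -/
def NearIntegral {k : Type*} [Field k] {n : ℕ} (R : Subring k)
    (b : Finset (MvPolynomial (Fin (n + 1)) R)) (P : ℙ k (Fin (n + 1) → k)) : Prop :=
  (∃ (v : Fin (n + 1) → R) (h : (fun i => (v i : k)) ≠ 0), Projectivization.mk k _ h = P) ∧
  ∀ s : Ideal R, s.IsPrime → s.height = 1 →
    ∃ (v : Fin (n + 1) → R) (h : (fun i => (v i : k)) ≠ 0), Projectivization.mk k _ h = P ∧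
      (∃ i, v i ∉ s) ∧ ∃ g ∈ b, eval v g ∉ s

/-- `X \ Z` is arithmetically-special, through a model `Proj (R[T] / (a))` minus the zero scheme
of `b` over a finitely generated subring `R` of `k`: the forms `a` generate the ideal of `X` over
`k`, the forms `b` cut out `Z` in `X`, and the near-integral points are Zariski dense. -/
def ArithmeticallySpecial {k : Type*} [Field k] {n : ℕ} (X Z : Set (ℙ k (Fin (n + 1) → k))) :
    Prop :=
  ∃ R : Subring k, (∃ s : Finset k, R = Subring.closure (s : Set k)) ∧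
    ∃ a b : Finset (MvPolynomial (Fin (n + 1)) R), (∀ f ∈ a, ∃ d, f.IsHomogeneous d) ∧
      (∀ g ∈ b, ∃ d, g.IsHomogeneous d) ∧
      Ideal.span (map R.subtype '' (a : Set (MvPolynomial (Fin (n + 1)) R))) =
        vanishingIdeal k {v | ∃ h : v ≠ 0, Projectivization.mk k v h ∈ X} ∧
      (∀ x ∈ X, x ∈ Z ↔ ∀ g ∈ b, eval x.rep (map R.subtype g) = 0) ∧
      X \ Z ⊆ @closure _ (zariski k n) {P | P ∈ X \ Z ∧ NearIntegral R b P}

theorem result {k : Type*} [Field k] [IsAlgClosed k] [CharZero k] {n m l : ℕ}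
    (G : Set (ℙ k (Fin (n + 1) → k))) [Group G] (hG : IsConnectedAlgebraicGroup G)
    (Y : Set (ℙ k (Fin (m + 1) → k))) (_hY : IsVariety Y) [MulAction G Y]
    (hact : IsMorphismTwo G Y fun g y => (g • y).1) (y₀ : Y)
    (horb : Y ⊆ @closure _ (zariski k m) (Set.range fun g : G => (g • y₀).1))
    (Z₀ : Set (ℙ k (Fin (m + 1) → k))) (hZ₀ : CodimTwo Y Z₀)
    (X Z : Set (ℙ k (Fin (l + 1) → k))) (_hX : @IsClosed _ (zariski k l) X)
    (hZ : @IsClosed _ (zariski k l) Z) (_hZX : Z ⊆ X)
    (f : ℙ k (Fin (m + 1) → k) → ℙ k (Fin (l + 1) → k)) (hf : IsMorphism (Y \ Z₀) fun y => f y)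
    (hmap : Set.MapsTo f (Y \ Z₀) (X \ Z))
    (hdom : X \ Z ⊆ @closure _ (zariski k l) (f '' (Y \ Z₀))) :
    ArithmeticallySpecial X Z := by
  let := zariski k n
  let := zariski k m
  let := zariski k l
  let _ : AddGroup G := inferInstanceAs (AddGroup (Additive G))
  obtain ⟨τ, _, _, c, hc⟩ := Q.exists_ctx (t := zariski k n) rfl G hG.variety.1
    (Q.reg_of_forms₂ _ _ _ hG.mul_regular) (Q.reg_of_forms _ _ hG.inv_regular)
  have := Subtype.irreducibleSpace hG.variety.2
  refine Q.top c ((Q.projPV (t := zariski k m) rfl).comap (Subtype.val : Y → _)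
    Topology.IsEmbedding.subtypeVal) (fun g y => g • y)
    (by exact (Q.reg_of_forms₂ _ _ _ hact).comp ((hc.comp (Q.Reg.fst _ _)).pair (Q.Reg.snd _ _)))
    (one_smul G) (mul_smul (α := G)) y₀ (Subtype.dense_iff.2 (by rwa [← Set.range_comp]))
    hZ₀.2.1 hZ₀.2.2 (t := zariski k l) rfl X Z hZ (fun y => f y)
    ((Q.reg_of_forms _ _ hf).mono fun y : ((Subtype.val ⁻¹' Z₀)ᶜ : Set Y) => ⟨y.1, y.1.2, y.2⟩)
    (fun y hy => hmap ⟨y.2, hy⟩)
    (hdom.trans (closure_mono fun _ ⟨x, hx, e⟩ => ⟨⟨x, hx.1⟩, hx.2, e⟩))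

/-- The case `f = id`: the question for a variety `X \ B` with a dense orbit. -/
theorem almostHomogeneous {k : Type*} [Field k] [IsAlgClosed k] [CharZero k] {n m : ℕ}
    (G : Set (ℙ k (Fin (n + 1) → k))) [Group G] (hG : IsConnectedAlgebraicGroup G)
    (X B : Set (ℙ k (Fin (m + 1) → k))) (hX : @IsClosed _ (zariski k m) X)
    (hB : @IsClosed _ (zariski k m) B) (hBX : B ⊆ X) (hY : IsVariety (X \ B))
    [MulAction G (X \ B : Set _)] (hact : IsMorphismTwo G (X \ B) fun g y => (g • y).1)
    (y₀ : (X \ B : Set _))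
    (horb : X \ B ⊆ @closure _ (zariski k m) (Set.range fun g : G => (g • y₀).1))
    (Z : Set (ℙ k (Fin (m + 1) → k))) (hZ : CodimTwo (X \ B) Z) :
    ArithmeticallySpecial X (B ∪ Z) := by
  let := zariski k m
  obtain ⟨C, hC, h⟩ := isClosed_induced_iff.1 hZ.2.1
  have h1 : B ∪ Z = B ∪ X ∩ C := by
    ext x
    by_cases hx : x ∈ B
    · simp [hx]
    · simp only [Set.mem_union, hx, false_or]
      exact ⟨fun h' => ⟨(hZ.1 h').1, (Set.ext_iff.1 h ⟨x, hZ.1 h'⟩).2 h'⟩,
        fun h' => (Set.ext_iff.1 h ⟨x, h'.1, hx⟩).1 h'.2⟩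
  exact result G hG (X \ B) hY hact y₀ horb Z hZ X (B ∪ Z) hX (h1 ▸ hB.union (hX.inter hC))
    (Set.union_subset hBX fun _ h => (hZ.1 h).1) id
    (fun x => ⟨1, MvPolynomial.X, 0, 1, isHomogeneous_one _ _, isHomogeneous_X k, by simp,
      fun y _ => ⟨by simpa using y.1.rep_nonzero, by simp⟩⟩)
    (by rw [Set.sdiff_sdiff]; exact Set.mapsTo_id _)
    (by rw [Set.image_id, Set.sdiff_sdiff]; exact subset_closure)

/-- The case of a connected algebraic group `X \ B` acting on itself. -/
theorem group {k : Type*} [Field k] [IsAlgClosed k] [CharZero k] {m : ℕ}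
    (X B : Set (ℙ k (Fin (m + 1) → k))) (hX : @IsClosed _ (zariski k m) X)
    (hB : @IsClosed _ (zariski k m) B) (hBX : B ⊆ X) [Group (X \ B : Set _)]
    (hG : IsConnectedAlgebraicGroup (X \ B)) (Z : Set (ℙ k (Fin (m + 1) → k)))
    (hZ : CodimTwo (X \ B) Z) : ArithmeticallySpecial X (B ∪ Z) :=
  almostHomogeneous (X \ B) hG X B hX hB hBX hG.variety hG.mul_regular 1
    (fun x hx => @subset_closure _ (zariski k m) _ _ ⟨⟨x, hx⟩, by simp⟩) Z hZ

end Pool.Agent.Results.MP_84b56d_ag.AlmostHomogeneous
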