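import Pool.Agent.P.MP_84b56d_ag.PC.All

/-! A smooth arithmetically special variety whose complement of a closed subset of codimension two
is not arithmetically special. -/

open AlgebraicGeometry CategoryTheory Pool.Agent.P.MP_84b56d_ag.PC

namespace Pool.Agent.Results.MP_84b56d_ag.Counterexample

theorem result (k : Type) [Field k] [IsAlgClosed k] [CharZero k]
    (hk : Uncountable k ∨ 19 ≤ Algebra.trdeg ℚ k) :
    ∃ (X : Scheme.{0}) (s : X ⟶ Spec (.of k)) (Z : Set X) (U : X.Opens),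
      IsIntegral X ∧ IsSeparated s ∧ LocallyOfFiniteType s ∧ QuasiCompact s ∧ Smooth s ∧
      IsClosed Z ∧ (∀ z ∈ Z, 2 ≤ ringKrullDim (X.presheaf.stalk z)) ∧ (U : Set X) = Zᶜ ∧
      ArithSpecial s ∧ ¬ ArithSpecial (U.ι ≫ s) := by
  obtain ⟨X, s, Z, hZ, h1, h2, h3, h4, h5, h6, h7, h8⟩ :=
    allMain k (hk.elim (fun _ => trdegB k) id)
  exact ⟨X, s, Z, ⟨Zᶜ, hZ.isOpen_compl⟩, h1, h2, h3, h4, h5, hZ, h6, rfl, h7, h8⟩

end Pool.Agent.Results.MP_84b56d_ag.Counterexample
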