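import Pool.Agent.P.MP_84b56d_ag.CI.Bridge

/-! Complete intersections of low degree in many variables, and complements in them of one more
hypersurface of low degree, stay arithmetically-special after removing any closed subset of
codimension at least two.
Varieties are classical: subsets of projective space over an algebraically closed field. -/

open MvPolynomial Pool.Agent.P.MP_84b56d_ag
open scoped LinearAlgebra.Projectivization

namespace Pool.Agent.Results.MP_84b56d_ag.LowDegree

universe u

/-- The Zariski topology of projective `n`-space: generated by the complements of hypersurfaces. -/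
def zariski (k : Type*) [Field k] (n : ℕ) : TopologicalSpace (ℙ k (Fin (n + 1) → k)) :=
  TopologicalSpace.generateFrom {U | ∃ (f : MvPolynomial (Fin (n + 1)) k) (d : ℕ),
    f.IsHomogeneous d ∧ U = {x | eval x.rep f ≠ 0}}

/-- A quasi-projective variety: an irreducible locally closed subset of projective space. -/
def IsVariety {k : Type*} [Field k] {n : ℕ} (Y : Set (ℙ k (Fin (n + 1) → k))) : Prop :=
  @IsLocallyClosed _ (zariski k n) Y ∧ @IsIrreducible _ (zariski k n) Y

/-- `Z` is a closed subset of `Y` of codimension at least two: every irreducible closed subset of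
`Y` inside `Z` has coheight at least two among the irreducible closed subsets of `Y`. -/
def CodimTwo {k : Type*} [Field k] {n : ℕ} (Y Z : Set (ℙ k (Fin (n + 1) → k))) : Prop :=
  letI := zariski k n
  Z ⊆ Y ∧ IsClosed (Subtype.val ⁻¹' Z : Set Y) ∧ ∀ W : TopologicalSpace.IrreducibleCloseds Y,
    (W : Set Y) ⊆ Subtype.val ⁻¹' Z → 2 ≤ Order.coheight W

/-- `P` has coordinates in the fraction field of `R`, and at every height one prime `s` of `R` it
has coordinates in `R`, not all in `s`, at which some form of `b` is not in `s`: `P` extends to a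
point over the local ring at `s` of the complement of the zero scheme of `b`. -/
def NearIntegral {k : Type*} [Field k] {n : ℕ} (R : Subring k)
    (b : Finset (MvPolynomial (Fin (n + 1)) R)) (P : ℙ k (Fin (n + 1) → k)) : Prop :=
  (∃ (v : Fin (n + 1) → R) (h : (fun i => (v i : k)) ≠ 0), Projectivization.mk k _ h = P) ∧
  ∀ s : Ideal R, s.IsPrime → s.height = 1 →
    ∃ (v : Fin (n + 1) → R) (h : (fun i => (v i : k)) ≠ 0), Projectivization.mk k _ h = P ∧
      (∃ i, v i ∉ s) ∧ ∃ g ∈ b, eval v g ∉ s

/-- `X \ Z` is arithmetically-special, through a model `Proj (R[T] / (a))` minus the zero scheme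
of `b` over a finitely generated subring `R` of `k`: the forms `a` generate the ideal of `X` over
`k`, the forms `b` cut out `Z` in `X`, and the near-integral points are Zariski dense. -/
def ArithmeticallySpecial {k : Type*} [Field k] {n : ℕ} (X Z : Set (ℙ k (Fin (n + 1) → k))) :
    Prop :=
  ∃ R : Subring k, (∃ s : Finset k, R = Subring.closure (s : Set k)) ∧
    ∃ a b : Finset (MvPolynomial (Fin (n + 1)) R), (∀ f ∈ a, ∃ d, f.IsHomogeneous d) ∧
      (∀ g ∈ b, ∃ d, g.IsHomogeneous d) ∧
      Ideal.span (map R.subtype '' (a : Set (MvPolynomial (Fin (n + 1)) R))) =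
        vanishingIdeal k {v | ∃ h : v ≠ 0, Projectivization.mk k v h ∈ X} ∧
      (∀ x ∈ X, x ∈ Z ↔ ∀ g ∈ b, eval x.rep (map R.subtype g) = 0) ∧
      X \ Z ⊆ @closure _ (zariski k n) {P | P ∈ X \ Z ∧ NearIntegral R b P}

theorem result (r D : ℕ) : ∃ n₀ : ℕ,
    ∀ (k : Type u) [Field k] [IsAlgClosed k] [CharZero k] (n s : ℕ)
      (f : Fin r → MvPolynomial (Fin (n + 1)) k) (d : Fin r → ℕ)
      (l : Fin s → MvPolynomial (Fin (n + 1)) k) (T : Finset (Fin r)), s + n₀ ≤ n →
      (∀ i, (f i).IsHomogeneous (d i) ∧ 1 ≤ d i ∧ d i ≤ D) →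
      (∀ m, ∃ e, 1 ≤ e ∧ (l m).IsHomogeneous e) →
      (∀ v : Fin (n + 1) → k, v ≠ 0 → (∀ i, eval v (f i) = 0) → (∀ m, eval v (l m) = 0) →
        LinearIndependent k fun i j => eval v (pderiv j (f i))) →
      T.card ≤ 1 → ∀ X B Z : Set (ℙ k (Fin (n + 1) → k)),
      X = {x | ∀ i ∉ T, eval x.rep (f i) = 0} → B = {x ∈ X | ∃ i ∈ T, eval x.rep (f i) = 0} →
      IsVariety (X \ B) → CodimTwo (X \ B) Z → ArithmeticallySpecial X (B ∪ Z) := by
  obtain ⟨n₀, H⟩ := CI.bridge.{u} (Fin r) D
  refine ⟨n₀, fun k _ _ _ n s f d l T hn hf hl hs hT X B Z hX hB hY hZ => ?_⟩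
  have h := H k (Fin (n + 1)) (Fin s) f d l T (by simp only [Fintype.card_fin]; omega)
    (fun i => (hf i).1) (fun i => (hf i).2.1) (fun i => (hf i).2.2) hl hs hT (zariski k n) rfl
    X B Z hX hB hY.2 hZ.1 hZ.2.1 hZ.2.2
  exact CI.out (t := zariski k n) rfl X (B ∪ Z) h.1 h.2

end Pool.Agent.Results.MP_84b56d_ag.LowDegree
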